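import Pool.Agent.KS6_12.EB.Sym
import Pool.Graph.R_pool_sql_team_22c7b01f.H15.Lev

/-!
MP_c8ce56_lc: for every infinite set `X` and every uncountable cardinal `κ`, the `κ`-ballean of the group of all
permutations of `X` is emu-bounded, except when `κ` is regular and equal to `2 ^ |X|`.
-/

set_option autoImplicit false

namespace Pool.Agent.Results.MP_c8ce56_lc.AllSymmetricGroups

open Set Cardinal Equiv

universe u

/-- Eventually macro-uniform functions for the `κ`-ballean of the group `G`. -/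
def Emu (κ : Cardinal.{u}) {G : Type u} [Group G] (f : G → ℝ) : Prop :=
  ∀ F : Set G, #F < κ → ∃ B : Set G, #B < κ ∧
    ∃ C : ℝ, ∀ x ∉ B, ∀ a ∈ F, ∀ b ∈ F, |f (a * x) - f (b * x)| ≤ C

/-- The `κ`-ballean of the group `G` is emu-bounded. -/
def EmuBounded (κ : Cardinal.{u}) (G : Type u) [Group G] : Prop :=
  ∀ f : G → ℝ, Emu κ f → ∃ B : Set G, #B < κ ∧ ∃ C : ℝ, ∀ x ∉ B, |f x| ≤ C

/-- If `|G|` is uncountable and regular, the `|G|`-ballean of `G` is not emu-bounded. -/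
theorem neg {G : Type u} [Group G] (h0 : ℵ₀ < #G) (hr : (#G).IsRegular) : ¬ EmuBounded (#G) G := fun H => by
  obtain ⟨l, su, -, hi, hm, sm⟩ := Pool.Agent.H15.Lev.exists_lev h0
  obtain ⟨e⟩ : Nonempty ((#G).ord.ToType ≃ G × ULift.{u} ℕ) := Cardinal.eq.1 (by
    simp [mul_eq_left h0.le h0.le aleph0_ne_zero])
  have := Cardinal.noMaxOrder h0.le
  obtain ⟨B, hB, C, hC⟩ := H (fun x => ((e (l x)).2.down : ℝ)) fun F hF => by
    obtain ⟨d, hd⟩ := not_isCofinal_iff.1 fun k : IsCofinal (l '' F) =>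
      hF.not_ge (by simpa [hr.cof_ord] using (Order.cof_le k).trans mk_image_le)
    refine ⟨_, sm d, 0, fun x hx a ha b hb => ?_⟩
    have k : ∀ a ∈ F, l (a * x) = l x := fun a ha => Pool.Agent.H15.Lev.lmul' hi hm
      ((hd _ ⟨a, ha, rfl⟩).trans (not_le.1 hx))
    simp [k a ha, k b hb]
  obtain ⟨n, hn⟩ := exists_nat_gt C
  obtain ⟨g, hg⟩ : ∃ g, g ∉ (fun x => (e (l x)).1) '' B := by
    by_contra! k
    refine (mk_image_le.trans_lt hB : #((fun x => (e (l x)).1) '' B) < #G).not_ge ?_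
    rw [eq_univ_of_forall k, mk_univ]
  obtain ⟨x, hx⟩ := su (e.symm (g, ⟨n⟩))
  have := hC x fun k => hg ⟨x, k, by simp [hx]⟩
  simp [hx] at this
  linarith

/-- A function that is almost invariant up to a constant, with a uniform bound for the exceptional sets. -/
theorem almost {X : Type u} [Infinite X] {κ : Cardinal.{u}} (h0 : ℵ₀ ≤ κ) (h1 : κ < 2 ^ #X) {f : Perm X → ℝ}
    {C : ℝ} (hC : 0 < C) (H : ∀ g, #{x | C < |f (g * x) - f x|} < κ) :
    ∃ B : Set (Perm X), #B < κ ∧ ∃ C : ℝ, ∀ x ∉ B, |f x| ≤ C := by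
  obtain ⟨v, hv⟩ := Pool.Agent.KS6_12.EB.main h0 h1 H hC
  refine ⟨_, hv, 26 * C + |v|, fun x hx => ?_⟩
  have := abs_sub_abs_le_abs_sub (f x) v
  have hx : |f x - v| ≤ 26 * C := not_lt.1 hx
  linarith

theorem pick {G : Type u} {κ : Cardinal.{u}} {S B : Set G} (hS : κ ≤ #S) (hB : #B < κ) : ∃ x ∈ S, x ∉ B :=
  not_subset.1 fun n => (hB.trans_le hS).not_ge (mk_le_mk_of_subset n)

/-- The uniform constant for an eventually macro-uniform function. -/
theorem uniform {G : Type u} [Group G] {κ : Cardinal.{u}} (hκ : ℵ₀ < κ) {f : G → ℝ} (hf : Emu κ f) :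
    ∃ C : ℝ, 0 < C ∧ ∀ g, #{x | C < |f (g * x) - f x|} < κ := by
  by_contra! n
  choose g hg using fun m : ℕ => n (m + 1) (by positivity)
  obtain ⟨B, hB, C, hC⟩ := hf (insert 1 (range g))
    ((((countable_range g).insert _).le_aleph0).trans_lt hκ)
  obtain ⟨m, hm⟩ := exists_nat_gt C
  obtain ⟨x, x1, x2⟩ := pick (hg m) hB
  have := hC x x2 _ (.inr ⟨m, rfl⟩) 1 (.inl rfl)
  rw [one_mul] at this
  have x1 : (m : ℝ) + 1 < _ := x1
  linarith

/-- For singular `κ` the exceptional sets have a uniform size. -/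
theorem uniform_sing {G : Type u} [Group G] {κ : Cardinal.{u}} (hκ : ℵ₀ < κ) (hs : κ.IsSingular) {f : G → ℝ}
    (hf : Emu κ f) : ∃ C : ℝ, 0 < C ∧ ∃ μ : Cardinal.{u}, ℵ₀ ≤ μ ∧ μ < κ ∧
      ∀ g, #{x | C < |f (g * x) - f x|} < μ := by
  by_contra! n
  obtain ⟨T, hT, cT⟩ := Order.exists_cof_eq κ.ord.ToType
  have hmax : ∀ t : κ.ord.ToType, max ℵ₀ #(Iio t) < κ := fun t =>
    max_lt hκ (mk_Iio_toType_ord_lt t)
  choose g hg using fun (m : ℕ) (t : κ.ord.ToType) =>
    n (m + 1) (by positivity) (max ℵ₀ #(Iio t)) (le_max_left _ _) (hmax t)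
  have hTc : #T < κ := by
    rw [cT]; simpa using hs.cof_ord_lt
  have hF : #(insert 1 (range fun p : ULift.{u} ℕ × T => g p.1.down p.2) : Set G) < κ := by
    refine (mk_insert_le).trans_lt (add_lt_of_lt hκ.le ?_ (one_lt_aleph0.trans hκ))
    refine mk_range_le.trans_lt ?_
    rw [mk_prod, lift_id, lift_id]
    exact mul_lt_of_lt hκ.le (by simpa using hκ) hTc
  obtain ⟨B, hB, C, hC⟩ := hf _ hF
  obtain ⟨m, hm⟩ := exists_nat_gt C
  obtain ⟨d, hd⟩ := Pool.Agent.H15.Lev.bigI (hs.isSuccLimit.succ_lt hB)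
  obtain ⟨t, ht, hdt⟩ := hT d
  have h1 : Order.succ #B ≤ #{x | (m : ℝ) + 1 < |f (g m t * x) - f x|} := by
    refine le_trans ?_ ((le_max_right _ _).trans (hg m t))
    rw [← hd]
    exact mk_le_mk_of_subset (Iio_subset_Iio hdt)
  obtain ⟨x, x1, x2⟩ := pick h1 (Order.lt_succ _)
  have := hC x x2 _ (.inr ⟨(⟨m⟩, ⟨t, ht⟩), rfl⟩) 1 (.inl rfl)
  rw [one_mul] at this
  have x1 : (m : ℝ) + 1 < _ := x1
  linarith

/-- **The emu-bounded balleans of the symmetric groups.** For every infinite set `X` and every uncountable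
cardinal `κ`, the `κ`-ballean of the group of all permutations of `X` is emu-bounded if and only if it is not
the case that `κ = 2 ^ |X|` is regular. -/
theorem result (X : Type u) [Infinite X] (κ : Cardinal.{u}) (hκ : ℵ₀ < κ) :
    EmuBounded κ (Perm X) ↔ ¬ (κ = 2 ^ #X ∧ κ.IsRegular) := by
  have hP : #(Perm X) = 2 ^ #X := mk_perm_eq_two_power
  constructor
  · rintro H ⟨h, hr⟩
    rw [← hP] at h
    subst h
    exact neg hκ hr H
  · intro h f hf
    rcases lt_trichotomy κ (2 ^ #X) with h1 | h1 | h1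
    · obtain ⟨C, h2, h3⟩ := uniform hκ hf
      exact almost hκ.le h1 h2 h3
    · have hs : κ.IsSingular := (isRegular_or_isSingular hκ.le).resolve_left fun k => h ⟨h1, k⟩
      obtain ⟨C, h2, μ, h3, h4, h5⟩ := uniform_sing hκ hs hf
      obtain ⟨B, h6, h7⟩ := almost h3 (h1 ▸ h4) h2 h5
      exact ⟨B, h6.trans h4, h7⟩
    · exact ⟨univ, by rw [mk_univ, hP]; exact h1, 0, fun x hx => (hx (mem_univ x)).elim⟩

end Pool.Agent.Results.MP_c8ce56_lc.AllSymmetricGroups
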